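import Mathlib

set_option autoImplicit false

namespace Pool.Agent.Work.MP_0e3695_co

/-- A `2`-edge-coloured graph on `V` is given by the graph `R` of its red edges and the graph `B`
of its blue edges, which share no edge.  A majority `3`-partition is a map `c` from the vertices to
`3` colours (the parts are its colour classes) such that every vertex `v` has at most half of its
red neighbours and at most half of its blue neighbours in its own part. -/
def IsMajorityThreePartition {V : Type} (R B : SimpleGraph V) (c : V → Fin 3) : Prop :=
  ∀ v, 2 * {w | R.Adj v w ∧ c w = c v}.ncard ≤ {w | R.Adj v w}.ncard ∧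
    2 * {w | B.Adj v w ∧ c w = c v}.ncard ≤ {w | B.Adj v w}.ncard

end Pool.Agent.Work.MP_0e3695_co
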