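import Pool.Agent.Work.MP_0e3695_co.Defs

set_option autoImplicit false

namespace Pool.Agent.Work.MP_0e3695_co

/-- Number of hub vertices in each of the two big blocks of a local structure. -/
def big (t : ℕ) : ℕ := (t + 3) * 2 ^ (2 * t)

/-- Index set of the hubs of a local structure. -/
abbrev Rt (t : ℕ) : Type := Fin t ⊕ (Fin (big t) ⊕ Fin (big t))

/-- Number of hubs. -/
def hubs (t : ℕ) : ℕ := 3 * (t + (big t + big t))

/-- Ways of choosing the hubs of a local structure. -/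
abbrev Em (t : ℕ) : Type := Rt t ↪ Fin (hubs t)

/-- `t`-subsets of the `2t` vertices of the first layer. -/
abbrev Ts (t : ℕ) : Type := {T : Finset (Fin (2 * t)) // T.card = t}

/-- The vertices: hubs `u`, and for every local structure `f` the first layer `w`, the second layer
`z` and the final gadgets `g`. -/
inductive Vx (t : ℕ) : Type
  | u (x : Fin (hubs t))
  | w (f : Em t) (y : Fin (2 * t))
  | z (f : Em t) (T : Ts t) (q : Fin t)
  | g (f : Em t) (T : Ts t) (i : Fin 4)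

open Vx

/-- The red edges, each in one direction. -/
def red (t : ℕ) : Vx t → Vx t → Prop
  | u x, w f _ => ∃ j, x = f (Sum.inr (Sum.inl j))
  | u x, z f _ _ => ∃ j, x = f (Sum.inl j)
  | u x, g f _ i => (∃ j, x = f (Sum.inl j)) ∧ (i = 0 ∨ i = 2)
  | w f y, g f' T i => f = f' ∧ y ∈ T.1 ∧ (i = 0 ∨ i = 2)
  | g f T i, g f' T' i' => f = f' ∧ T = T' ∧ (i = 0 ∨ i = 2) ∧ i' = 1
  | z f T _, g f' T' i => f = f' ∧ T = T' ∧ (i = 1 ∨ i = 3)
  | _, _ => False

/-- The blue edges, each in one direction. -/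
def blue (t : ℕ) : Vx t → Vx t → Prop
  | u x, w f _ => ∃ j, x = f (Sum.inr (Sum.inr j))
  | w f y, z f' T _ => f = f' ∧ y ∈ T.1
  | u x, g f _ i => (∃ j, x = f (Sum.inl j)) ∧ (i = 1 ∨ i = 3)
  | w f y, g f' T i => f = f' ∧ y ∈ T.1 ∧ (i = 1 ∨ i = 3)
  | g f T i, g f' T' i' => f = f' ∧ T = T' ∧ i ≠ 3 ∧ i' = 3
  | z f T _, g f' T' i => f = f' ∧ T = T' ∧ (i = 0 ∨ i = 2)
  | _, _ => False

/-- The graph of red edges. -/
def redG (t : ℕ) : SimpleGraph (Vx t) where
  Adj x y := red t x y ∨ red t y x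
  symm := ⟨fun _ _ h => h.symm⟩
  loopless := ⟨by
    rintro (x | ⟨f, y⟩ | ⟨f, T, q⟩ | ⟨f, T, i⟩) h <;> simp [red] at h
    omega⟩

/-- The graph of blue edges. -/
def blueG (t : ℕ) : SimpleGraph (Vx t) where
  Adj x y := blue t x y ∨ blue t y x
  symm := ⟨fun _ _ h => h.symm⟩
  loopless := ⟨by
    rintro (x | ⟨f, y⟩ | ⟨f, T, q⟩ | ⟨f, T, i⟩) h <;> simp [blue] at h⟩

lemma red_blue {t : ℕ} {x y : Vx t} (h : red t x y) (h' : blue t x y ∨ blue t y x) : False := by
  rcases x with x | ⟨f, x⟩ | ⟨f, T, q⟩ | ⟨f, T, i⟩ <;>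
    rcases y with y | ⟨f', y⟩ | ⟨f', T', q'⟩ | ⟨f', T', i'⟩ <;> simp [red, blue] at h h'
  · obtain ⟨j, rfl⟩ := h
    obtain ⟨j', hj⟩ := h'
    simp at hj
  · omega
  · omega
  · omega
  · obtain ⟨rfl, rfl, h1, rfl⟩ := h
    simp at h'
    omega

theorem disjoint_red_blue (t : ℕ) : Disjoint (redG t) (blueG t) := by
  rw [disjoint_iff]
  ext x y
  simp only [SimpleGraph.inf_adj, SimpleGraph.bot_adj, iff_false, not_and]
  rintro (h | h) h'
  · exact red_blue h h'
  · exact red_blue h h'.symm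

end Pool.Agent.Work.MP_0e3695_co
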