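import Pool.Agent.Work.MP_0e3695_co.Graph

set_option autoImplicit false

namespace Pool.Agent.Work.MP_0e3695_co

open Vx

/-- The vertex set is finite. -/
def vxEquiv (t : ℕ) : Vx t ≃ (Fin (hubs t) ⊕ (Em t × Fin (2 * t))) ⊕
    ((Em t × Ts t × Fin t) ⊕ (Em t × Ts t × Fin 4)) where
  toFun
    | u x => Sum.inl (Sum.inl x)
    | w f y => Sum.inl (Sum.inr (f, y))
    | z f T q => Sum.inr (Sum.inl (f, T, q))
    | g f T i => Sum.inr (Sum.inr (f, T, i))
  invFun
    | Sum.inl (Sum.inl x) => u x
    | Sum.inl (Sum.inr (f, y)) => w f y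
    | Sum.inr (Sum.inl (f, T, q)) => z f T q
    | Sum.inr (Sum.inr (f, T, i)) => g f T i
  left_inv := by rintro (x | ⟨f, y⟩ | ⟨f, T, q⟩ | ⟨f, T, i⟩) <;> rfl
  right_inv := by rintro ((x | ⟨f, y⟩) | (⟨f, T, q⟩ | ⟨f, T, i⟩)) <;> rfl

instance (t : ℕ) : Finite (Vx t) := Finite.of_equiv _ (vxEquiv t).symm

lemma le_ncard {α V : Type} [Fintype α] [Finite V] (S : Set V) (φ : α → V)
    (hφ : Function.Injective φ) (h : ∀ a, φ a ∈ S) : Fintype.card α ≤ S.ncard := by
  rw [← Nat.card_eq_fintype_card, ← Nat.card_coe_set_eq]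
  exact Nat.card_le_card_of_injective (fun a => (⟨φ a, h a⟩ : S))
    fun a b hab => hφ (congrArg Subtype.val hab)

lemma ncard_le {α V : Type} [Fintype α] (S : Set V) (ψ : α → V)
    (h : ∀ v ∈ S, ∃ a, ψ a = v) : S.ncard ≤ Fintype.card α := by
  have h1 : S ⊆ Set.range ψ := fun v hv => h v hv
  calc S.ncard ≤ (Set.range ψ).ncard := Set.ncard_le_ncard h1 (Set.finite_range ψ)
    _ ≤ Fintype.card α := by
        rw [← Nat.card_coe_set_eq, ← Nat.card_eq_fintype_card]
        exact Nat.card_le_card_of_surjective (Set.rangeFactorization ψ)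
          Set.rangeFactorization_surjective

/-- The basic step: `α` injects into the neighbours with the colour of `v`, and `β` covers the
neighbourhood of `v`. -/
lemma step {α β V : Type} [Fintype α] [Fintype β] [Finite V] {G : SimpleGraph V} {c : V → Fin 3}
    {v : V} (h : 2 * {w | G.Adj v w ∧ c w = c v}.ncard ≤ {w | G.Adj v w}.ncard)
    (φ : α → V) (hφ : Function.Injective φ) (hφ' : ∀ a, G.Adj v (φ a) ∧ c (φ a) = c v)
    (ψ : β → V) (hψ : ∀ x, G.Adj v x → ∃ b, ψ b = x) :
    2 * Fintype.card α ≤ Fintype.card β := by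
  have h1 := le_ncard {w | G.Adj v w ∧ c w = c v} φ hφ hφ'
  have h2 := ncard_le {w | G.Adj v w} ψ hψ
  omega

lemma card_Ts (t : ℕ) : Fintype.card (Ts t) ≤ 2 ^ (2 * t) := by
  calc Fintype.card (Ts t) ≤ Fintype.card (Finset (Fin (2 * t))) :=
        Fintype.card_subtype_le _
    _ = 2 ^ (2 * t) := by simp

lemma card_mem (t : ℕ) (T : Ts t) : Fintype.card {y // y ∈ T.1} = t := by
  rw [Fintype.card_coe, T.2]

lemma adjR {t : ℕ} {x y : Vx t} : (redG t).Adj x y ↔ red t x y ∨ red t y x := Iff.rfl

lemma adjB {t : ℕ} {x y : Vx t} : (blueG t).Adj x y ↔ blue t x y ∨ blue t y x := Iff.rfl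

section

variable {t : ℕ} {c : Vx t → Fin 3} {f : Em t} {i : Fin 3}

/-- First layer: not the colour of the hubs. -/
lemma layer_w (ht : 3 ≤ t) (hc : IsMajorityThreePartition (redG t) (blueG t) c)
    (hf : ∀ r, c (u (f r)) = i) (y : Fin (2 * t)) : c (w f y) ≠ i := by
  intro hy
  have h := step (hc (w f y)).1 (fun j : Fin (big t) => u (f (Sum.inr (Sum.inl j))))
    (fun a b hab => by simpa using hab)
    (fun j => ⟨adjR.mpr (Or.inr ⟨j, rfl⟩), by rw [hf, hy]⟩)
    (fun b : Fin (big t) ⊕ (Ts t × Bool) => match b with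
      | Sum.inl j => u (f (Sum.inr (Sum.inl j)))
      | Sum.inr (T, b) => g f T (if b then 0 else 2))
    (by
      rintro (x | ⟨f', y'⟩ | ⟨f', T', q'⟩ | ⟨f', T', i'⟩) hadj <;>
        simp only [adjR, red, or_false, false_or] at hadj
      · obtain ⟨j, rfl⟩ := hadj
        exact ⟨Sum.inl j, rfl⟩
      · obtain ⟨rfl, -, rfl | rfl⟩ := hadj
        · exact ⟨Sum.inr (T', true), rfl⟩
        · exact ⟨Sum.inr (T', false), rfl⟩)
  simp only [Fintype.card_fin, Fintype.card_sum, Fintype.card_prod, Fintype.card_bool] at h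
  have h1 := card_Ts t
  have h2 : 6 * 2 ^ (2 * t) ≤ big t := by
    unfold big
    exact Nat.mul_le_mul_right _ (by omega)
  have h3 : 0 < 2 ^ (2 * t) := by positivity
  omega

variable {T : Ts t} {j : Fin 3}

/-- Second layer: neither the colour of the hubs nor the one of `T`. -/
lemma layer_z (ht : 3 ≤ t) (hc : IsMajorityThreePartition (redG t) (blueG t) c)
    (hf : ∀ r, c (u (f r)) = i) (hT : ∀ y ∈ T.1, c (w f y) = j) (q : Fin t) :
    c (z f T q) ≠ i ∧ c (z f T q) ≠ j := by
  constructor
  · intro hz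
    have h := step (hc (z f T q)).1 (fun j : Fin t => u (f (Sum.inl j)))
      (fun a b hab => by simpa using hab)
      (fun j => ⟨adjR.mpr (Or.inr ⟨j, rfl⟩), by rw [hf, hz]⟩)
      (fun b : Fin t ⊕ Bool => match b with
        | Sum.inl j => u (f (Sum.inl j))
        | Sum.inr b => g f T (if b then 1 else 3))
      (by
        rintro (x | ⟨f', y'⟩ | ⟨f', T', q'⟩ | ⟨f', T', i'⟩) hadj <;>
          simp only [adjR, red, or_false, false_or] at hadj
        · obtain ⟨j, rfl⟩ := hadj
          exact ⟨Sum.inl j, rfl⟩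
        · obtain ⟨rfl, rfl, rfl | rfl⟩ := hadj
          · exact ⟨Sum.inr true, rfl⟩
          · exact ⟨Sum.inr false, rfl⟩)
    simp only [Fintype.card_fin, Fintype.card_sum, Fintype.card_bool] at h
    omega
  · intro hz
    have h := step (hc (z f T q)).2 (fun y : {y // y ∈ T.1} => w f y)
      (fun a b hab => by
        simp only [w.injEq, true_and] at hab
        exact Subtype.ext hab)
      (fun y => ⟨adjB.mpr (Or.inr ⟨rfl, y.2⟩), by rw [hT y y.2, hz]⟩)
      (fun b : {y // y ∈ T.1} ⊕ Bool => match b with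
        | Sum.inl y => w f y
        | Sum.inr b => g f T (if b then 0 else 2))
      (by
        rintro (x | ⟨f', y'⟩ | ⟨f', T', q'⟩ | ⟨f', T', i'⟩) hadj <;>
          simp only [adjB, blue, or_false, false_or] at hadj
        · obtain ⟨rfl, hy⟩ := hadj
          exact ⟨Sum.inl ⟨y', hy⟩, rfl⟩
        · obtain ⟨rfl, rfl, rfl | rfl⟩ := hadj
          · exact ⟨Sum.inr true, rfl⟩
          · exact ⟨Sum.inr false, rfl⟩)
    rw [Fintype.card_sum, card_mem, Fintype.card_bool] at h
    omega

variable {l : Fin 3}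

/-- The gadget vertices avoid the third colour. -/
lemma layer_g (ht : 3 ≤ t) (hc : IsMajorityThreePartition (redG t) (blueG t) c)
    (hz : ∀ q, c (z f T q) = l) (n : Fin 4) : c (g f T n) ≠ l := by
  intro hn
  by_cases h02 : n = 0 ∨ n = 2
  · have h := step (hc (g f T n)).2 (fun q : Fin t => z f T q)
      (fun a b hab => by simpa using hab)
      (fun q => ⟨adjB.mpr (Or.inr ⟨rfl, rfl, h02⟩), by rw [hz, hn]⟩)
      (fun b : Fin t ⊕ Unit => match b with
        | Sum.inl q => z f T q
        | Sum.inr _ => g f T 3)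
      (by
        rintro (x | ⟨f', y'⟩ | ⟨f', T', q'⟩ | ⟨f', T', i'⟩) hadj <;>
          simp only [adjB, blue, or_false, false_or] at hadj
        · omega
        · omega
        · obtain ⟨rfl, rfl, -⟩ := hadj
          exact ⟨Sum.inl q', rfl⟩
        · rcases hadj with ⟨rfl, rfl, -, rfl⟩ | ⟨rfl, rfl, -, h3⟩
          · exact ⟨Sum.inr (), rfl⟩
          · omega)
    simp only [Fintype.card_fin, Fintype.card_sum, Fintype.card_unit] at h
    omega
  · have h13 : n = 1 ∨ n = 3 := by omega
    have h := step (hc (g f T n)).1 (fun q : Fin t => z f T q)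
      (fun a b hab => by simpa using hab)
      (fun q => ⟨adjR.mpr (Or.inr ⟨rfl, rfl, h13⟩), by rw [hz, hn]⟩)
      (fun b : Fin t ⊕ Bool => match b with
        | Sum.inl q => z f T q
        | Sum.inr b => g f T (if b then 0 else 2))
      (by
        rintro (x | ⟨f', y'⟩ | ⟨f', T', q'⟩ | ⟨f', T', i'⟩) hadj <;>
          simp only [adjR, red, or_false, false_or] at hadj
        · omega
        · omega
        · obtain ⟨rfl, rfl, -⟩ := hadj
          exact ⟨Sum.inl q', rfl⟩
        · rcases hadj with ⟨rfl, rfl, h3, -⟩ | ⟨rfl, rfl, h3 | h3, -⟩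
          · omega
          · subst h3
            exact ⟨Sum.inr true, rfl⟩
          · subst h3
            exact ⟨Sum.inr false, rfl⟩)
    simp only [Fintype.card_fin, Fintype.card_sum, Fintype.card_bool] at h
    omega

/-- Red edges `g0 g1` and `g2 g1` join different colours. -/
lemma gadget_red (hc : IsMajorityThreePartition (redG t) (blueG t) c)
    (hf : ∀ r, c (u (f r)) = i) (hT : ∀ y ∈ T.1, c (w f y) = j) (n : Fin 4)
    (hn : n = 0 ∨ n = 2) (hij : c (g f T n) = i ∨ c (g f T n) = j) :
    c (g f T n) ≠ c (g f T 1) := by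
  intro heq
  have hcover : ∀ x, (redG t).Adj (g f T n) x →
      ∃ b : Option (Fin t ⊕ {y // y ∈ T.1}), (match b with
        | none => g f T 1
        | some (Sum.inl j) => u (f (Sum.inl j))
        | some (Sum.inr y) => w f y) = x := by
    rintro (x | ⟨f', y'⟩ | ⟨f', T', q'⟩ | ⟨f', T', i'⟩) hadj <;>
      simp only [adjR, red, or_false, false_or] at hadj
    · obtain ⟨⟨j, rfl⟩, -⟩ := hadj
      exact ⟨some (Sum.inl j), rfl⟩
    · obtain ⟨rfl, hy, -⟩ := hadj
      exact ⟨some (Sum.inr ⟨y', hy⟩), rfl⟩
    · omega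
    · rcases hadj with ⟨rfl, rfl, -, rfl⟩ | ⟨rfl, rfl, -, h3⟩
      · exact ⟨none, rfl⟩
      · omega
  rcases hij with hi | hj
  · have h := step (hc (g f T n)).1
      (fun b : Option (Fin t) => match b with
        | none => g f T 1
        | some j => u (f (Sum.inl j)))
      (by
        rintro (_ | a) (_ | b) hab
        · rfl
        · cases hab
        · cases hab
        · simpa using hab)
      (by
        rintro (_ | a)
        · exact ⟨adjR.mpr (Or.inl ⟨rfl, rfl, hn, rfl⟩), heq.symm⟩
        · exact ⟨adjR.mpr (Or.inr ⟨⟨a, rfl⟩, hn⟩), by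
            change c (u (f (Sum.inl a))) = _
            rw [hf, hi]⟩)
      _ hcover
    rw [Fintype.card_option, Fintype.card_option, Fintype.card_sum, card_mem,
      Fintype.card_fin] at h
    omega
  · have h := step (hc (g f T n)).1
      (fun b : Option {y // y ∈ T.1} => match b with
        | none => g f T 1
        | some y => w f y)
      (by
        rintro (_ | a) (_ | b) hab
        · rfl
        · cases hab
        · cases hab
        · simp only [w.injEq, true_and] at hab
          rw [Subtype.ext hab])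
      (by
        rintro (_ | a)
        · exact ⟨adjR.mpr (Or.inl ⟨rfl, rfl, hn, rfl⟩), heq.symm⟩
        · exact ⟨adjR.mpr (Or.inr ⟨rfl, a.2, hn⟩), by
            change c (w f a) = _
            rw [hT a a.2, hj]⟩)
      _ hcover
    rw [Fintype.card_option, Fintype.card_option, Fintype.card_sum, card_mem,
      Fintype.card_fin] at h
    omega

/-- The blue edge `g1 g3` joins different colours. -/
lemma gadget_blue (hc : IsMajorityThreePartition (redG t) (blueG t) c)
    (hf : ∀ r, c (u (f r)) = i) (hT : ∀ y ∈ T.1, c (w f y) = j)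
    (hij : c (g f T 1) = i ∨ c (g f T 1) = j) :
    c (g f T 1) ≠ c (g f T 3) := by
  intro heq
  have hcover : ∀ x, (blueG t).Adj (g f T 1) x →
      ∃ b : Option (Fin t ⊕ {y // y ∈ T.1}), (match b with
        | none => g f T 3
        | some (Sum.inl j) => u (f (Sum.inl j))
        | some (Sum.inr y) => w f y) = x := by
    rintro (x | ⟨f', y'⟩ | ⟨f', T', q'⟩ | ⟨f', T', i'⟩) hadj <;>
      simp only [adjB, blue, or_false, false_or] at hadj
    · obtain ⟨⟨j, rfl⟩, -⟩ := hadj
      exact ⟨some (Sum.inl j), rfl⟩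
    · obtain ⟨rfl, hy, -⟩ := hadj
      exact ⟨some (Sum.inr ⟨y', hy⟩), rfl⟩
    · omega
    · rcases hadj with ⟨rfl, rfl, -, rfl⟩ | ⟨rfl, rfl, -, h3⟩
      · exact ⟨none, rfl⟩
      · omega
  rcases hij with hi | hj
  · have h := step (hc (g f T 1)).2
      (fun b : Option (Fin t) => match b with
        | none => g f T 3
        | some j => u (f (Sum.inl j)))
      (by
        rintro (_ | a) (_ | b) hab
        · rfl
        · cases hab
        · cases hab
        · simpa using hab)
      (by
        rintro (_ | a)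
        · exact ⟨adjB.mpr (Or.inl ⟨rfl, rfl, by decide, rfl⟩), heq.symm⟩
        · exact ⟨adjB.mpr (Or.inr ⟨⟨a, rfl⟩, by decide⟩), by
            change c (u (f (Sum.inl a))) = _
            rw [hf, hi]⟩)
      _ hcover
    rw [Fintype.card_option, Fintype.card_option, Fintype.card_sum, card_mem,
      Fintype.card_fin] at h
    omega
  · have h := step (hc (g f T 1)).2
      (fun b : Option {y // y ∈ T.1} => match b with
        | none => g f T 3
        | some y => w f y)
      (by
        rintro (_ | a) (_ | b) hab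
        · rfl
        · cases hab
        · cases hab
        · simp only [w.injEq, true_and] at hab
          rw [Subtype.ext hab])
      (by
        rintro (_ | a)
        · exact ⟨adjB.mpr (Or.inl ⟨rfl, rfl, by decide, rfl⟩), heq.symm⟩
        · exact ⟨adjB.mpr (Or.inr ⟨rfl, a.2, by decide⟩), by
            change c (w f a) = _
            rw [hT a a.2, hj]⟩)
      _ hcover
    rw [Fintype.card_option, Fintype.card_option, Fintype.card_sum, card_mem,
      Fintype.card_fin] at h
    omega

/-- The vertices `g0`, `g2`, `g3` cannot all have the same colour. -/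
lemma gadget_three (hc : IsMajorityThreePartition (redG t) (blueG t) c)
    (hf : ∀ r, c (u (f r)) = i) (hT : ∀ y ∈ T.1, c (w f y) = j)
    (hij : c (g f T 3) = i ∨ c (g f T 3) = j)
    (h0 : c (g f T 0) = c (g f T 3)) (h2 : c (g f T 2) = c (g f T 3)) : False := by
  have hcover : ∀ x, (blueG t).Adj (g f T 3) x →
      ∃ b : Fin 3 ⊕ (Fin t ⊕ {y // y ∈ T.1}), (match b with
        | Sum.inl n => g f T n.castSucc
        | Sum.inr (Sum.inl j) => u (f (Sum.inl j))
        | Sum.inr (Sum.inr y) => w f y) = x := by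
    rintro (x | ⟨f', y'⟩ | ⟨f', T', q'⟩ | ⟨f', T', i'⟩) hadj <;>
      simp only [adjB, blue, or_false, false_or] at hadj
    · obtain ⟨⟨j, rfl⟩, -⟩ := hadj
      exact ⟨Sum.inr (Sum.inl j), rfl⟩
    · obtain ⟨rfl, hy, -⟩ := hadj
      exact ⟨Sum.inr (Sum.inr ⟨y', hy⟩), rfl⟩
    · omega
    · rcases hadj with ⟨rfl, rfl, h3, -⟩ | ⟨rfl, rfl, h3, -⟩
      · exact absurd rfl h3
      · refine ⟨Sum.inl ⟨i'.1, by omega⟩, ?_⟩
        simp only [g.injEq, true_and]
        ext
        rfl
  have hadj0 : (blueG t).Adj (g f T 3) (g f T 0) := adjB.mpr (Or.inr ⟨rfl, rfl, by decide, rfl⟩)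
  have hadj2 : (blueG t).Adj (g f T 3) (g f T 2) := adjB.mpr (Or.inr ⟨rfl, rfl, by decide, rfl⟩)
  rcases hij with hi | hj
  · have h := step (hc (g f T 3)).2
      (fun b : Bool ⊕ Fin t => match b with
        | Sum.inl true => g f T 0
        | Sum.inl false => g f T 2
        | Sum.inr j => u (f (Sum.inl j)))
      (by
        rintro ((_ | _) | a) ((_ | _) | b) hab <;> simp at hab ⊢
        exact hab)
      (by
        rintro ((_ | _) | a)
        · exact ⟨hadj2, h2⟩
        · exact ⟨hadj0, h0⟩
        · exact ⟨adjB.mpr (Or.inr ⟨⟨a, rfl⟩, by decide⟩), by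
            change c (u (f (Sum.inl a))) = _
            rw [hf, hi]⟩)
      _ hcover
    rw [Fintype.card_sum, Fintype.card_sum, Fintype.card_sum, card_mem,
      Fintype.card_fin, Fintype.card_fin, Fintype.card_bool] at h
    omega
  · have h := step (hc (g f T 3)).2
      (fun b : Bool ⊕ {y // y ∈ T.1} => match b with
        | Sum.inl true => g f T 0
        | Sum.inl false => g f T 2
        | Sum.inr y => w f y)
      (by
        rintro ((_ | _) | a) ((_ | _) | b) hab <;> simp at hab ⊢
        exact hab)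
      (by
        rintro ((_ | _) | a)
        · exact ⟨hadj2, h2⟩
        · exact ⟨hadj0, h0⟩
        · exact ⟨adjB.mpr (Or.inr ⟨rfl, a.2, by decide⟩), by
            change c (w f a) = _
            rw [hT a a.2, hj]⟩)
      _ hcover
    rw [Fintype.card_sum, Fintype.card_sum, Fintype.card_sum, card_mem,
      Fintype.card_fin, Fintype.card_fin, Fintype.card_bool] at h
    omega

end

theorem no_partition (t : ℕ) (ht : 3 ≤ t) (c : Vx t → Fin 3) :
    ¬ IsMajorityThreePartition (redG t) (blueG t) c := by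
  classical
  intro hc
  -- unanimous hubs
  obtain ⟨i, hi⟩ : ∃ i : Fin 3, t + (big t + big t) ≤
      (Finset.univ.filter fun x : Fin (hubs t) => c (u x) = i).card :=
    Fintype.exists_le_card_fiber_of_mul_le_card (fun x : Fin (hubs t) => c (u x))
      (by rw [Fintype.card_fin, Fintype.card_fin]; exact le_refl _)
  obtain ⟨e⟩ : Nonempty (Rt t ↪ {x : Fin (hubs t) // c (u x) = i}) := by
    apply Function.Embedding.nonempty_of_card_le
    rw [Fintype.card_subtype]
    simpa using hi
  let f : Em t := e.trans (Function.Embedding.subtype _)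
  have hf : ∀ r, c (u (f r)) = i := fun r => (e r).2
  -- the first layer
  have hw := layer_w ht hc hf
  obtain ⟨j, hj, hT⟩ : ∃ j ∈ Finset.univ.erase i,
      t ≤ (Finset.univ.filter fun y : Fin (2 * t) => c (w f y) = j).card := by
    apply Finset.exists_le_card_fiber_of_mul_le_card_of_maps_to
    · intro y _
      exact Finset.mem_erase.mpr ⟨hw y, Finset.mem_univ _⟩
    · exact Finset.card_pos.mp (by
        rw [Finset.card_erase_of_mem (Finset.mem_univ _)]
        simp)
    · rw [Finset.card_erase_of_mem (Finset.mem_univ _)]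
      simp
  have hji : j ≠ i := (Finset.mem_erase.mp hj).1
  obtain ⟨T, hTsub, hTcard⟩ := Finset.exists_subset_card_eq hT
  let T' : Ts t := ⟨T, hTcard⟩
  have hT' : ∀ y ∈ T'.1, c (w f y) = j := fun y hy => (Finset.mem_filter.mp (hTsub hy)).2
  -- the second layer
  have hz := layer_z ht hc hf hT'
  let q₀ : Fin t := ⟨0, by omega⟩
  have hzl : ∀ q, c (z f T' q) = c (z f T' q₀) := by
    intro q
    have h1 := hz q
    have h2 := hz q₀
    omega
  have hl := hz q₀
  have hg := layer_g ht hc hzl
  have hgij : ∀ n, c (g f T' n) = i ∨ c (g f T' n) = j := by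
    intro n
    have := hg n
    omega
  have h01 := gadget_red hc hf hT' 0 (by decide) (hgij 0)
  have h21 := gadget_red hc hf hT' 2 (by decide) (hgij 2)
  have h13 := gadget_blue hc hf hT' (hgij 1)
  have e0 := hgij 0
  have e1 := hgij 1
  have e2 := hgij 2
  have e3 := hgij 3
  exact gadget_three hc hf hT' e3 (by omega) (by omega)

/-! ### Degrees -/

lemma exists_em (t : ℕ) (r : Rt t) (x : Fin (hubs t)) : ∃ f : Em t, f r = x := by
  classical
  obtain ⟨e⟩ : Nonempty (Rt t ↪ Fin (hubs t)) := by
    apply Function.Embedding.nonempty_of_card_le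
    rw [Fintype.card_sum, Fintype.card_sum, Fintype.card_fin, Fintype.card_fin, Fintype.card_fin]
    unfold hubs
    omega
  refine ⟨e.trans (Equiv.swap (e r) x).toEmbedding, ?_⟩
  simp

theorem min_degree (t : ℕ) (ht : 1 ≤ t) (v : Vx t) :
    t ≤ {x | (redG t).Adj v x}.ncard ∧ t ≤ {x | (blueG t).Adj v x}.ncard := by
  have hbig : t ≤ big t := by
    unfold big
    have : 0 < 2 ^ (2 * t) := by positivity
    nlinarith
  have hbpos : 0 < big t := by omega
  rcases v with x | ⟨f, y⟩ | ⟨f, T, q⟩ | ⟨f, T, n⟩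
  · constructor
    · obtain ⟨f, hf⟩ := exists_em t (Sum.inr (Sum.inl ⟨0, hbpos⟩)) x
      have := le_ncard {y | (redG t).Adj (u x) y} (fun y : Fin (2 * t) => w f y)
        (fun a b hab => by simpa using hab) (fun y => adjR.mpr (Or.inl ⟨_, hf.symm⟩))
      rw [Fintype.card_fin] at this
      omega
    · obtain ⟨f, hf⟩ := exists_em t (Sum.inr (Sum.inr ⟨0, hbpos⟩)) x
      have := le_ncard {y | (blueG t).Adj (u x) y} (fun y : Fin (2 * t) => w f y)
        (fun a b hab => by simpa using hab) (fun y => adjB.mpr (Or.inl ⟨_, hf.symm⟩))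
      rw [Fintype.card_fin] at this
      omega
  · constructor
    · have := le_ncard {x | (redG t).Adj (w f y) x}
        (fun j : Fin (big t) => u (f (Sum.inr (Sum.inl j))))
        (fun a b hab => by simpa using hab) (fun j => adjR.mpr (Or.inr ⟨j, rfl⟩))
      rw [Fintype.card_fin] at this
      omega
    · have := le_ncard {x | (blueG t).Adj (w f y) x}
        (fun j : Fin (big t) => u (f (Sum.inr (Sum.inr j))))
        (fun a b hab => by simpa using hab) (fun j => adjB.mpr (Or.inr ⟨j, rfl⟩))
      rw [Fintype.card_fin] at this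
      omega
  · constructor
    · have := le_ncard {x | (redG t).Adj (z f T q) x} (fun j : Fin t => u (f (Sum.inl j)))
        (fun a b hab => by simpa using hab) (fun j => adjR.mpr (Or.inr ⟨j, rfl⟩))
      rw [Fintype.card_fin] at this
      omega
    · have := le_ncard {x | (blueG t).Adj (z f T q) x} (fun y : {y // y ∈ T.1} => w f y)
        (fun a b hab => by
          simp only [w.injEq, true_and] at hab
          exact Subtype.ext hab) (fun y => adjB.mpr (Or.inr ⟨rfl, y.2⟩))
      rw [card_mem] at this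
      omega
  · by_cases h02 : n = 0 ∨ n = 2
    · constructor
      · have := le_ncard {x | (redG t).Adj (g f T n) x} (fun j : Fin t => u (f (Sum.inl j)))
          (fun a b hab => by simpa using hab) (fun j => adjR.mpr (Or.inr ⟨⟨j, rfl⟩, h02⟩))
        rw [Fintype.card_fin] at this
        omega
      · have := le_ncard {x | (blueG t).Adj (g f T n) x} (fun q : Fin t => z f T q)
          (fun a b hab => by simpa using hab) (fun j => adjB.mpr (Or.inr ⟨rfl, rfl, h02⟩))
        rw [Fintype.card_fin] at this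
        omega
    · have h13 : n = 1 ∨ n = 3 := by omega
      constructor
      · have := le_ncard {x | (redG t).Adj (g f T n) x} (fun q : Fin t => z f T q)
          (fun a b hab => by simpa using hab) (fun j => adjR.mpr (Or.inr ⟨rfl, rfl, h13⟩))
        rw [Fintype.card_fin] at this
        omega
      · have := le_ncard {x | (blueG t).Adj (g f T n) x} (fun j : Fin t => u (f (Sum.inl j)))
          (fun a b hab => by simpa using hab) (fun j => adjB.mpr (Or.inr ⟨⟨j, rfl⟩, h13⟩))
        rw [Fintype.card_fin] at this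
        omega

end Pool.Agent.Work.MP_0e3695_co
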